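import Pool.Agent.Helper16.AZ.Stmts
import Pool.Agent.Helper40.Wiener

/-! Module EQD: equidistribution of minimal rotations. -/

set_option autoImplicit false

open Finset Filter MeasureTheory Topology
open scoped ComplexConjugate

namespace Pool.Agent.Helper16.AZ

open UnitAddTorus (mFourier)

/-- the value of a character at a sum -/
theorem eqd_add {r : ℕ} (X : Fin r → ℤ) (x y : T r) :
    mFourier X (x + y) = mFourier X x * mFourier X y := by
  show ∏ i, fourier (X i) (x i + y i) = (∏ i, fourier (X i) (x i)) * ∏ i, fourier (X i) (y i)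
  rw [← Finset.prod_mul_distrib]
  refine Finset.prod_congr rfl fun i _ => ?_
  simp only [fourier_apply, smul_add, AddCircle.toCircle_add, Circle.coe_mul]

/-- the value of a character at a multiple -/
theorem eqd_nsmul {r : ℕ} (X : Fin r → ℤ) (y : T r) (n : ℕ) :
    mFourier X (n • y) = mFourier X y ^ n := by
  induction n with
  | zero =>
    rw [zero_smul, pow_zero]
    show ∏ i, fourier (X i) ((0 : T r) i) = 1
    refine Finset.prod_eq_one fun i _ => ?_
    simp
  | succ n ih => rw [add_smul, one_smul, eqd_add, ih, pow_succ]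

/-- the characters have norm 1 -/
theorem eqd_norm {r : ℕ} (X : Fin r → ℤ) (y : T r) : ‖mFourier X y‖ = 1 := by
  show ‖∏ i, fourier (X i) (y i)‖ = 1
  rw [norm_prod]
  refine Finset.prod_eq_one fun i _ => ?_
  rw [fourier_apply]
  exact Circle.norm_coe _

/-- a character is nontrivial on the generator -/
theorem eqd_ne {r : ℕ} (X : Fin r → ℤ) (β : T r) (hβ : Ind β) (hX : X ≠ 0) :
    mFourier X β ≠ 1 := by
  intro h
  apply hβ X hX
  have h1 : mFourier X β = ((AddCircle.toCircle (∑ i, X i • β i) : Circle) : ℂ) := by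
    show ∏ i, fourier (X i) (β i) = _
    have h2 : ∀ s : Finset (Fin r), ∏ i ∈ s, fourier (X i) (β i) =
        ((AddCircle.toCircle (∑ i ∈ s, X i • β i) : Circle) : ℂ) := by
      intro s
      induction s using Finset.induction_on with
      | empty => simp
      | insert a s ha ih =>
        rw [Finset.prod_insert ha, Finset.sum_insert ha, ih, AddCircle.toCircle_add,
          Circle.coe_mul, fourier_apply]
    exact h2 _
  rw [h1] at h
  have h3 : AddCircle.toCircle (∑ i, X i • β i) = 1 := by
    apply Subtype.ext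
    rw [h]
    rfl
  apply AddCircle.injective_toCircle (T := (1 : ℝ)) one_ne_zero
  rw [h3, AddCircle.toCircle_zero]

theorem st_EQD : ST_EQD := by
  intro r β hβ F hF x₀
  -- the submodule of the functions with the claimed property
  have hint : ∀ G : C(T r, ℂ), Integrable (fun θ => G θ) (mm r) := fun G =>
    G.continuous.integrable_of_hasCompactSupport (HasCompactSupport.of_compactSpace _)
  let W : Submodule ℂ C(T r, ℂ) :=
    { carrier := {G | ∀ x : T r, Tendsto (fun N : ℕ => (∑ n ∈ range N, G (x + n • β)) / (N : ℂ))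
        atTop (𝓝 (∫ θ, G θ ∂(mm r)))}
      add_mem' := by
        intro G₁ G₂ h1 h2 x
        have h3 := (h1 x).add (h2 x)
        have e : ∫ θ, (G₁ + G₂) θ ∂(mm r) = ∫ θ, G₁ θ ∂(mm r) + ∫ θ, G₂ θ ∂(mm r) :=
          integral_add (hint G₁) (hint G₂)
        rw [e]
        refine h3.congr fun N => ?_
        simp only [ContinuousMap.add_apply, Finset.sum_add_distrib, add_div]
      zero_mem' := by
        intro x
        simp
      smul_mem' := by
        intro c G h1 x
        have h3 := (h1 x).const_mul c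
        have e : ∫ θ, (c • G) θ ∂(mm r) = c * ∫ θ, G θ ∂(mm r) := by
          rw [← integral_const_mul]
          rfl
        rw [e]
        refine h3.congr fun N => ?_
        simp only [ContinuousMap.smul_apply, smul_eq_mul, ← Finset.mul_sum, mul_div_assoc] }
  have hW1 : Submodule.span ℂ (Set.range (mFourier (d := Fin r))) ≤ W := by
    rw [Submodule.span_le]
    rintro _ ⟨X, rfl⟩ x
    by_cases hX : X = 0
    · subst hX
      have e1 : ∀ θ : T r, mFourier (0 : Fin r → ℤ) θ = 1 := by
        intro θ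
        show ∏ i, fourier ((0 : Fin r → ℤ) i) (θ i) = 1
        refine Finset.prod_eq_one fun i _ => ?_
        simp
      simp only [e1]
      rw [integral_const, probReal_univ, one_smul]
      refine tendsto_const_nhds.congr' ?_
      filter_upwards [eventually_gt_atTop 0] with N hN
      have : (N : ℂ) ≠ 0 := by exact_mod_cast hN.ne'
      simp [this]
    · set w := mFourier X β with hw
      have hw1 : ‖w‖ = 1 := eqd_norm X β
      have hw2 : w ≠ 1 := eqd_ne X β hβ hX
      have h0 : ∫ θ, mFourier X θ ∂(mm r) = 0 := by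
        have h1 : ∫ θ, mFourier X (θ + β) ∂(mm r) = ∫ θ, mFourier X θ ∂(mm r) :=
          integral_add_right_eq_self (μ := mm r) (fun θ => mFourier X θ) β
        have h2 : ∫ θ, mFourier X (θ + β) ∂(mm r) = (∫ θ, mFourier X θ ∂(mm r)) * w := by
          rw [← integral_mul_const]
          refine integral_congr_ae (Eventually.of_forall fun θ => ?_)
          exact eqd_add X θ β
        rw [h1] at h2
        have h3 : (∫ θ, mFourier X θ ∂(mm r)) * (w - 1) = 0 := by
          rw [mul_sub, ← h2, mul_one, sub_self]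
        rcases mul_eq_zero.1 h3 with h | h
        · exact h
        · exact absurd (sub_eq_zero.1 h) hw2
      rw [h0]
      have h4 := (Pool.Agent.Helper40.Wiener.geom_zero hw1 hw2).const_mul (mFourier X x)
      rw [mul_zero] at h4
      refine h4.congr fun N => ?_
      rw [← mul_div_assoc, Finset.mul_sum]
      congr 1
      refine Finset.sum_congr rfl fun n _ => ?_
      rw [eqd_add, eqd_nsmul]
  have hW2 : (⟨F, hF⟩ : C(T r, ℂ)) ∈ W.topologicalClosure := by
    have h1 : (Submodule.span ℂ (Set.range (mFourier (d := Fin r)))).topologicalClosure ≤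
        W.topologicalClosure := Submodule.topologicalClosure_mono hW1
    rw [UnitAddTorus.span_mFourier_closure_eq_top] at h1
    exact h1 trivial
  have hW3 : (⟨F, hF⟩ : C(T r, ℂ)) ∈ closure (W : Set C(T r, ℂ)) := hW2
  rw [Metric.mem_closure_iff] at hW3
  rw [Metric.tendsto_atTop]
  intro ε hε
  obtain ⟨G, hG, hd⟩ := hW3 (ε / 4) (by positivity)
  have hG2 := hG x₀
  rw [Metric.tendsto_atTop] at hG2
  obtain ⟨N₀, hN₀⟩ := hG2 (ε / 4) (by positivity)
  refine ⟨N₀, fun N hN => ?_⟩
  have hp : ∀ θ : T r, ‖F θ - G θ‖ ≤ ε / 4 := by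
    intro θ
    have h1 := ContinuousMap.dist_apply_le_dist (f := (⟨F, hF⟩ : C(T r, ℂ))) (g := G) θ
    have h2 : dist (F θ) (G θ) ≤ ε / 4 := h1.trans hd.le
    rwa [dist_eq_norm] at h2
  have h1 : ‖(∑ n ∈ range N, F (x₀ + n • β)) / (N : ℂ) -
      (∑ n ∈ range N, G (x₀ + n • β)) / (N : ℂ)‖ ≤ ε / 4 := by
    rw [← sub_div, ← Finset.sum_sub_distrib, norm_div, Complex.norm_natCast]
    rcases Nat.eq_zero_or_pos N with h0 | h0
    · subst h0
      simp
      positivity
    · have h0' : (0 : ℝ) < N := by exact_mod_cast h0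
      rw [div_le_iff₀ h0']
      refine (norm_sum_le _ _).trans ?_
      refine (Finset.sum_le_sum fun n _ => hp _).trans ?_
      rw [Finset.sum_const, card_range, nsmul_eq_mul, mul_comm]
  have h2 : ‖∫ θ, F θ ∂(mm r) - ∫ θ, G θ ∂(mm r)‖ ≤ ε / 4 := by
    have e : ∫ θ, F θ ∂(mm r) - ∫ θ, G θ ∂(mm r) = ∫ θ, (F θ - G θ) ∂(mm r) :=
      (integral_sub (hint ⟨F, hF⟩) (hint G)).symm
    rw [e]
    refine (norm_integral_le_of_norm_le_const (Eventually.of_forall hp)).trans ?_
    rw [probReal_univ, mul_one]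
  have h3 := hN₀ N hN
  rw [dist_eq_norm] at h3 ⊢
  have e : (∑ n ∈ range N, F (x₀ + n • β)) / (N : ℂ) - ∫ θ, F θ ∂(mm r) =
      ((∑ n ∈ range N, F (x₀ + n • β)) / (N : ℂ) - (∑ n ∈ range N, G (x₀ + n • β)) / (N : ℂ)) +
      ((∑ n ∈ range N, G (x₀ + n • β)) / (N : ℂ) - ∫ θ, G θ ∂(mm r)) -
      (∫ θ, F θ ∂(mm r) - ∫ θ, G θ ∂(mm r)) := by ring
  rw [e]
  refine (norm_sub_le _ _).trans_lt ?_
  have h4 := norm_add_le ((∑ n ∈ range N, F (x₀ + n • β)) / (N : ℂ) -
    (∑ n ∈ range N, G (x₀ + n • β)) / (N : ℂ))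
    ((∑ n ∈ range N, G (x₀ + n • β)) / (N : ℂ) - ∫ θ, G θ ∂(mm r))
  linarith

end Pool.Agent.Helper16.AZ
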